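import Mathlib

set_option autoImplicit false

namespace Pool.Agent.Results.MP_68b5a7_an.InteriorPoint

open Set

/-- The half-open rectangle `[a, b) × [c, d)`. -/
def Rect (a b c d : ℝ) : Set (ℝ × ℝ) := Ico a b ×ˢ Ico c d

/-- The rectangles `[a i, b i) × [c i, d i)`, `i` in the finite set `ι`, partition the unit square
`[0,1)²`, their translates by the vectors `v i` partition it as well, and `φ` moves every point of
the `i`-th rectangle by `v i`: so `φ` is a rectangle exchange map of the unit square. -/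
structure IsRectangleExchange {ι : Type} [Finite ι] (a b c d : ι → ℝ) (v : ι → ℝ × ℝ)
    (φ : ℝ × ℝ → ℝ × ℝ) : Prop where
  disjoint : ∀ i j, i ≠ j → Disjoint (Rect (a i) (b i) (c i) (d i)) (Rect (a j) (b j) (c j) (d j))
  cover : (⋃ i, Rect (a i) (b i) (c i) (d i)) = Rect 0 1 0 1
  disjoint' : ∀ i j, i ≠ j → Disjoint
    (Rect (a i + (v i).1) (b i + (v i).1) (c i + (v i).2) (d i + (v i).2))
    (Rect (a j + (v j).1) (b j + (v j).1) (c j + (v j).2) (d j + (v j).2))
  cover' : (⋃ i, Rect (a i + (v i).1) (b i + (v i).1) (c i + (v i).2) (d i + (v i).2)) =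
    Rect 0 1 0 1
  trans : ∀ i, ∀ p ∈ Rect (a i) (b i) (c i) (d i), φ p = p + v i

/-- Euclidean distance in the plane. -/
noncomputable def euclidDist (p q : ℝ × ℝ) : ℝ := Real.sqrt ((p.1 - q.1) ^ 2 + (p.2 - q.2) ^ 2)

/-- rotation of `[1/4, 3/4)` by `α`, identity elsewhere -/
noncomputable def T (α x : ℝ) : ℝ :=
  if x < 1 / 4 then x else if x < 3 / 4 - α then x + α else if x < 3 / 4 then x + (α - 1 / 2) else x

/-- rotation of `[1/4, 3/4)` by `-α`, identity elsewhere -/
noncomputable def S (α y : ℝ) : ℝ :=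
  if y < 1 / 4 then y else if y < 1 / 4 + α then y + (1 / 2 - α) else if y < 3 / 4 then y - α else y

/-- the map: `T × S` -/
noncomputable def φ (α : ℝ) (p : ℝ × ℝ) : ℝ × ℝ := (T α p.1, S α p.2)

noncomputable def A (α : ℝ) : Fin 4 → ℝ := ![0, 1 / 4, 3 / 4 - α, 3 / 4]
noncomputable def B (α : ℝ) : Fin 4 → ℝ := ![1 / 4, 3 / 4 - α, 3 / 4, 1]
noncomputable def VA (α : ℝ) : Fin 4 → ℝ := ![0, α, α - 1 / 2, 0]
noncomputable def C (α : ℝ) : Fin 4 → ℝ := ![0, 1 / 4, 1 / 4 + α, 3 / 4]
noncomputable def D (α : ℝ) : Fin 4 → ℝ := ![1 / 4, 1 / 4 + α, 3 / 4, 1]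
noncomputable def VC (α : ℝ) : Fin 4 → ℝ := ![0, 1 / 2 - α, -α, 0]

/-- one dimensional partition -/
def Part (a b : Fin 4 → ℝ) : Prop := (∀ i j, i ≠ j → Disjoint (Ico (a i) (b i)) (Ico (a j) (b j))) ∧
  ∀ x, x ∈ Ico (0 : ℝ) 1 ↔ ∃ i, x ∈ Ico (a i) (b i)

theorem partA {α : ℝ} (h0 : 0 < α) (h1 : α < 1 / 2) : Part (A α) (B α) := by
  constructor
  · intro i j hij
    rw [Set.disjoint_left]
    intro x hi hj
    fin_cases i <;> fin_cases j <;> simp [A, B] at hij hi hj <;> linarith
  · intro x
    simp only [Fin.exists_fin_succ, A, B]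
    simp
    constructor
    · rintro ⟨h2, h3⟩
      rcases lt_or_ge x (1 / 4) with h | h
      · left; constructor <;> linarith
      rcases lt_or_ge x (3 / 4 - α) with h' | h'
      · right; left; constructor <;> linarith
      rcases lt_or_ge x (3 / 4) with h'' | h''
      · right; right; left; constructor <;> linarith
      · right; right; right; constructor <;> linarith
    · rintro (h | h | h | h) <;> constructor <;> linarith [h.1, h.2]

theorem partA' {α : ℝ} (h0 : 0 < α) (h1 : α < 1 / 2) :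
    Part (fun i => A α i + VA α i) (fun i => B α i + VA α i) := by
  constructor
  · intro i j hij
    rw [Set.disjoint_left]
    intro x hi hj
    fin_cases i <;> fin_cases j <;> simp [A, B, VA] at hij hi hj <;> linarith
  · intro x
    simp only [Fin.exists_fin_succ, A, B, VA]
    simp
    constructor
    · rintro ⟨h2, h3⟩
      rcases lt_or_ge x (1 / 4) with h | h
      · left; constructor <;> linarith
      rcases lt_or_ge x (1 / 4 + α) with h' | h'
      · right; right; left; constructor <;> linarith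
      rcases lt_or_ge x (3 / 4) with h'' | h''
      · right; left; constructor <;> linarith
      · right; right; right; constructor <;> linarith
    · rintro (h | h | h | h) <;> constructor <;> linarith [h.1, h.2]

theorem partC {α : ℝ} (h0 : 0 < α) (h1 : α < 1 / 2) : Part (C α) (D α) := by
  constructor
  · intro i j hij
    rw [Set.disjoint_left]
    intro x hi hj
    fin_cases i <;> fin_cases j <;> simp [C, D] at hij hi hj <;> linarith
  · intro x
    simp only [Fin.exists_fin_succ, C, D]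
    simp
    constructor
    · rintro ⟨h2, h3⟩
      rcases lt_or_ge x (1 / 4) with h | h
      · left; constructor <;> linarith
      rcases lt_or_ge x (1 / 4 + α) with h' | h'
      · right; left; constructor <;> linarith
      rcases lt_or_ge x (3 / 4) with h'' | h''
      · right; right; left; constructor <;> linarith
      · right; right; right; constructor <;> linarith
    · rintro (h | h | h | h) <;> constructor <;> linarith [h.1, h.2]

theorem partC' {α : ℝ} (h0 : 0 < α) (h1 : α < 1 / 2) :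
    Part (fun i => C α i + VC α i) (fun i => D α i + VC α i) := by
  constructor
  · intro i j hij
    rw [Set.disjoint_left]
    intro x hi hj
    fin_cases i <;> fin_cases j <;> simp [C, D, VC] at hij hi hj <;> linarith
  · intro x
    simp only [Fin.exists_fin_succ, C, D, VC]
    simp
    constructor
    · rintro ⟨h2, h3⟩
      rcases lt_or_ge x (1 / 4) with h | h
      · left; constructor <;> linarith
      rcases lt_or_ge x (3 / 4 - α) with h' | h'
      · right; right; left; constructor <;> linarith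
      rcases lt_or_ge x (3 / 4) with h'' | h''
      · right; left; constructor <;> linarith
      · right; right; right; constructor <;> linarith
    · rintro (h | h | h | h) <;> constructor <;> linarith [h.1, h.2]

theorem prod_disjoint {a b c d : Fin 4 → ℝ} (h1 : Part a b) (h2 : Part c d)
    (i j : Fin 4 × Fin 4) (hij : i ≠ j) :
    Disjoint (Rect (a i.1) (b i.1) (c i.2) (d i.2)) (Rect (a j.1) (b j.1) (c j.2) (d j.2)) := by
  rw [Set.disjoint_left]
  rintro ⟨x, y⟩ ⟨hx, hy⟩ ⟨hx', hy'⟩
  apply hij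
  refine Prod.ext ?_ ?_
  · by_contra hne
    exact Set.disjoint_left.1 (h1.1 _ _ hne) hx hx'
  · by_contra hne
    exact Set.disjoint_left.1 (h2.1 _ _ hne) hy hy'

theorem prod_cover {a b c d : Fin 4 → ℝ} (h1 : Part a b) (h2 : Part c d) :
    (⋃ i : Fin 4 × Fin 4, Rect (a i.1) (b i.1) (c i.2) (d i.2)) = Rect 0 1 0 1 := by
  ext ⟨x, y⟩
  rw [mem_iUnion]
  constructor
  · rintro ⟨i, hx, hy⟩
    exact ⟨(h1.2 x).2 ⟨_, hx⟩, (h2.2 y).2 ⟨_, hy⟩⟩
  · rintro ⟨hx, hy⟩
    obtain ⟨i, hi⟩ := (h1.2 x).1 hx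
    obtain ⟨j, hj⟩ := (h2.2 y).1 hy
    exact ⟨(i, j), hi, hj⟩

theorem T_eq {α : ℝ} (h0 : 0 < α) (h1 : α < 1 / 2) (i : Fin 4) (x : ℝ)
    (hx : x ∈ Ico (A α i) (B α i)) : T α x = x + VA α i := by
  unfold T
  fin_cases i <;> simp [A, B, VA] at hx ⊢ <;> intros <;> split_ifs <;> linarith

theorem S_eq {α : ℝ} (h0 : 0 < α) (h1 : α < 1 / 2) (i : Fin 4) (x : ℝ)
    (hx : x ∈ Ico (C α i) (D α i)) : S α x = x + VC α i := by
  unfold S
  fin_cases i <;> simp [C, D, VC] at hx ⊢ <;> intros <;> split_ifs <;> linarith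

theorem isExchange {α : ℝ} (h0 : 0 < α) (h1 : α < 1 / 2) :
    IsRectangleExchange (ι := Fin 4 × Fin 4) (fun i => A α i.1) (fun i => B α i.1)
      (fun i => C α i.2) (fun i => D α i.2) (fun i => (VA α i.1, VC α i.2)) (φ α) where
  disjoint := prod_disjoint (partA h0 h1) (partC h0 h1)
  cover := prod_cover (partA h0 h1) (partC h0 h1)
  disjoint' := prod_disjoint (partA' h0 h1) (partC' h0 h1)
  cover' := prod_cover (partA' h0 h1) (partC' h0 h1)
  trans := by
    rintro i ⟨x, y⟩ ⟨hx, hy⟩
    exact Prod.ext (T_eq h0 h1 _ _ hx) (S_eq h0 h1 _ _ hy)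

/-- the orbit of `(1/4, 1/4)` stays on the line `x + y = 1` -/
theorem orbit {α : ℝ} (hirr : Irrational α) (h0 : 0 < α) (h1 : α < 1 / 2) (n : ℕ) :
    ∃ t : ℝ, ∃ k : ℤ, t = (n + 1) * α - k / 2 ∧ 0 < t ∧ t < 1 / 2 ∧
      (φ α)^[n + 1] (1 / 4, 1 / 4) = (1 / 4 + t, 3 / 4 - t) := by
  induction n with
  | zero =>
    refine ⟨α, 0, by simp, h0, h1, ?_⟩
    simp only [zero_add, Function.iterate_one, φ, T, S]
    rw [if_neg (by norm_num), if_pos (by linarith), if_neg (by norm_num), if_pos (by linarith)]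
    refine Prod.ext rfl ?_
    simp only
    ring
  | succ n ih =>
    obtain ⟨t, k, ht, ht0, ht1, hn⟩ := ih
    have hne : t + α ≠ 1 / 2 := by
      intro h
      have h2 : ((n : ℝ) + 2) * α = ((k + 1 : ℤ) : ℝ) / 2 := by
        push_cast
        linear_combination h - ht
      have h3 : Irrational (((n + 2 : ℕ) : ℝ) * α) := hirr.natCast_mul (by omega)
      apply h3
      refine ⟨((k + 1 : ℤ) : ℚ) / 2, ?_⟩
      push_cast at h2 ⊢
      linarith
    rw [Function.iterate_succ_apply', hn]
    simp only [φ, T, S]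
    rcases lt_or_gt_of_ne hne with h | h
    · refine ⟨t + α, k, by push_cast; rw [ht]; ring, by linarith, h, ?_⟩
      rw [if_neg (by linarith), if_pos (by linarith), if_neg (by linarith), if_neg (by linarith),
        if_pos (by linarith)]
      refine Prod.ext ?_ ?_
      · simp only; ring
      · simp only; ring
    · refine ⟨t + α - 1 / 2, k + 1, by push_cast; rw [ht]; ring, by linarith, by linarith, ?_⟩
      rw [if_neg (by linarith), if_neg (by linarith), if_pos (by linarith), if_neg (by linarith),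
        if_pos (by linarith)]
      refine Prod.ext ?_ ?_
      · simp only; ring
      · simp only; ring

/-- **Main theorem.** There is a rectangle exchange map of the unit square with a point `p`, in the
open unit square, that is not recurrent: every forward iterate of `p` keeps Euclidean distance
greater than `1/4` from `p`. -/
theorem result : ∃ (ι : Type) (_ : Finite ι) (a b c d : ι → ℝ) (v : ι → ℝ × ℝ)
    (φ : ℝ × ℝ → ℝ × ℝ), IsRectangleExchange a b c d v φ ∧
      ∃ p ∈ Ioo (0 : ℝ) 1 ×ˢ Ioo (0 : ℝ) 1, ∀ N : ℕ, 1 ≤ N → 1 / 4 < euclidDist (φ^[N] p) p := by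
  have hirr : Irrational (Real.sqrt 2 / 4) := by
    have := irrational_sqrt_two.div_natCast (m := 4) (by norm_num)
    exact_mod_cast this
  have h2 : Real.sqrt 2 ^ 2 = 2 := Real.sq_sqrt (by norm_num)
  have h0 : 0 < Real.sqrt 2 / 4 := by positivity
  have h1 : Real.sqrt 2 / 4 < 1 / 2 := by nlinarith [Real.sqrt_nonneg 2]
  refine ⟨Fin 4 × Fin 4, inferInstance, _, _, _, _, _, φ (Real.sqrt 2 / 4), isExchange h0 h1,
    (1 / 4, 1 / 4), ⟨⟨by norm_num, by norm_num⟩, ⟨by norm_num, by norm_num⟩⟩, fun N hN => ?_⟩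
  obtain ⟨n, rfl⟩ : ∃ n, N = n + 1 := ⟨N - 1, by omega⟩
  obtain ⟨t, k, -, ht0, ht1, h⟩ := orbit hirr h0 h1 n
  rw [h, euclidDist]
  refine Real.lt_sqrt_of_sq_lt ?_
  simp only
  nlinarith [sq_nonneg (t - 1 / 4)]

end Pool.Agent.Results.MP_68b5a7_an.InteriorPoint
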